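import Mathlib
import Pool.Agent.Work.MP_5980c2_co.Lower
import Pool.Agent.Work.MP_5980c2_co.Upper

namespace Pool.Agent.Results.MP_5980c2_co.NoLimit

open Filter Topology Pool.Agent.Work.MP_5980c2_co

/-- `G` is a graph on `n` vertices of diameter at most `2` (any two vertices are equal or joined by
a path of length at most `2`) in which every vertex has degree at most `k`. -/
def Adm {n : ℕ} (k : ℝ) (G : SimpleGraph (Fin n)) : Prop :=
  (∀ u v : Fin n, u = v ∨ G.Adj u v ∨ ∃ w, G.Adj u w ∧ G.Adj w v) ∧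
  ∀ v : Fin n, ((G.neighborSet v).ncard : ℝ) ≤ k

/-- `e2 n k`: the least number of edges of a graph on `n` vertices with diameter at most `2` and
maximum degree at most `k`. -/
noncomputable def e2 (n : ℕ) (k : ℝ) : ℕ :=
  sInf {m | ∃ G : SimpleGraph (Fin n), Adm k G ∧ G.edgeSet.ncard = m}

lemma par_adm (n : ℕ) (hn : 5 ≤ n) : Adm ((3 / 5 : ℝ) * n) (par n) := by
  refine ⟨par_diam n hn, fun v => ?_⟩
  have h1 := par_deg n v
  have h2 : 5 * ((par n).neighborSet v).ncard ≤ 3 * n := by omega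
  have h3 : (5 : ℝ) * (((par n).neighborSet v).ncard : ℝ) ≤ 3 * (n : ℝ) := by exact_mod_cast h2
  linarith

lemma ext_adm (k : ℕ) : Adm ((3 / 5 : ℝ) * ((5 * k + 5 : ℕ) : ℝ)) (ext k) := by
  refine ⟨ext_diam k, fun v => ?_⟩
  have h1 := ext_deg k v
  have h2 : (((ext k).neighborSet v).ncard : ℝ) ≤ 3 * k + 3 := by exact_mod_cast h1
  push_cast
  linarith

lemma upper (k : ℕ) : (e2 (5 * k + 5) ((3 / 5 : ℝ) * ((5 * k + 5 : ℕ) : ℝ)) : ℝ)
    / ((5 * k + 5 : ℕ) : ℝ) ≤ 12 / 5 := by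
  have h1 : e2 (5 * k + 5) ((3 / 5 : ℝ) * ((5 * k + 5 : ℕ) : ℝ)) ≤ 12 * k + 6 := by
    refine le_trans (b := (ext k).edgeSet.ncard) ?_ (ext_edges k)
    unfold e2
    exact Nat.sInf_le ⟨ext k, ext_adm k, rfl⟩
  rw [div_le_iff₀ (by positivity)]
  have h2 : (e2 (5 * k + 5) ((3 / 5 : ℝ) * ((5 * k + 5 : ℕ) : ℝ)) : ℝ) ≤ 12 * k + 6 := by
    exact_mod_cast h1
  push_cast at h2 ⊢
  linarith

lemma lower (m : ℕ) (hm : 10000 ≤ m) (G : SimpleGraph (Fin (5 * m + 3)))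
    (hG : Adm ((3 / 5 : ℝ) * ((5 * m + 3 : ℕ) : ℝ)) G) :
    241 * (5 * m + 3) < 100 * G.edgeSet.ncard := by
  classical
  by_contra hcon
  push Not at hcon
  refine contradiction G hG.1 m (by simp) hm ?_ ?_
  · intro v
    have h1 := hG.2 v
    have h2 : (G.neighborSet v).ncard = D G v := by
      unfold D
      rw [← Set.ncard_coe_finset]
      congr 1
      ext u
      simp [Nb]
    rw [h2] at h1
    push_cast at h1
    have h3 : (5 : ℝ) * (D G v : ℝ) ≤ 3 * (5 * m + 3) := by linarith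
    have h4 : 5 * D G v ≤ 3 * (5 * m + 3) := by exact_mod_cast h3
    omega
  · rw [Fintype.card_fin, ← Set.ncard_coe_finset, SimpleGraph.coe_edgeFinset]
    exact hcon

lemma lower_e2 (m : ℕ) (hm : 10000 ≤ m) :
    (241 / 100 : ℝ) ≤ (e2 (5 * m + 3) ((3 / 5 : ℝ) * ((5 * m + 3 : ℕ) : ℝ)) : ℝ)
    / ((5 * m + 3 : ℕ) : ℝ) := by
  have hne : {k | ∃ G : SimpleGraph (Fin (5 * m + 3)),
      Adm ((3 / 5 : ℝ) * ((5 * m + 3 : ℕ) : ℝ)) G ∧ G.edgeSet.ncard = k}.Nonempty :=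
    ⟨_, par _, par_adm _ (by omega), rfl⟩
  obtain ⟨G, hG, hGe⟩ := Nat.sInf_mem hne
  have h1 := lower m hm G hG
  rw [hGe] at h1
  change 241 * (5 * m + 3) < 100 * e2 (5 * m + 3) ((3 / 5 : ℝ) * ((5 * m + 3 : ℕ) : ℝ)) at h1
  rw [le_div_iff₀ (by positivity)]
  have h2 : (241 : ℝ) * (5 * m + 3) <
      100 * (e2 (5 * m + 3) ((3 / 5 : ℝ) * ((5 * m + 3 : ℕ) : ℝ)) : ℝ) := by exact_mod_cast h1
  push_cast at h2 ⊢
  linarith

/-- For `c = 3/5` admissible graphs exist for all large `n`, but `e2 n (c n) / n` does not converge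
as `n → ∞`. -/
theorem result :
    (∀ᶠ n : ℕ in atTop, ∃ G : SimpleGraph (Fin n), Adm ((3 / 5 : ℝ) * (n : ℝ)) G) ∧
    ¬ ∃ L : ℝ, Tendsto (fun n : ℕ => (e2 n ((3 / 5 : ℝ) * (n : ℝ)) : ℝ) / (n : ℝ)) atTop (𝓝 L) := by
  refine ⟨?_, ?_⟩
  · filter_upwards [eventually_ge_atTop 5] with n hn
    exact ⟨par n, par_adm n hn⟩
  · rintro ⟨L, hL⟩
    have t1 : Tendsto (fun k : ℕ => 5 * k + 5) atTop atTop :=
      tendsto_atTop_mono (fun k => (by omega : k ≤ 5 * k + 5)) tendsto_id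
    have t2 : Tendsto (fun k : ℕ => 5 * k + 3) atTop atTop :=
      tendsto_atTop_mono (fun k => (by omega : k ≤ 5 * k + 3)) tendsto_id
    have h1 := le_of_tendsto (hL.comp t1) (Eventually.of_forall (fun k => upper k))
    have h2 := ge_of_tendsto (hL.comp t2)
      ((eventually_ge_atTop 10000).mono (fun m hm => lower_e2 m hm))
    linarith

end Pool.Agent.Results.MP_5980c2_co.NoLimit
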